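import Pool.Agent.R747.MilMain

/-!
A counterexample to Milnor's conjecture on complete saddle surfaces: an entire graph of a smooth function,
hence a complete properly embedded surface diffeomorphic to the plane, with negative Gaussian curvature
everywhere and with `|k₁| + |k₂|` bounded below by `1`, and even by any prescribed continuous function.
-/

set_option autoImplicit false

namespace Pool.Agent.Results.MP_0da599_gt.SaddleGraph

open Filter Topology
open scoped ContDiff RealInnerProductSpace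

/-- Euclidean three-space. -/
abbrev E3 : Type := EuclideanSpace ℝ (Fin 3)

/-- The length of `X ∘ γ` over `[a, b]`, for a `C¹` path `γ` in the plane; that is, the length of `γ` in
the metric induced by `X`. -/
noncomputable def pathLen (X : ℝ × ℝ → E3) (γ : ℝ → ℝ × ℝ) (a b : ℝ) : ℝ :=
  ∫ t in a..b, ‖fderiv ℝ X (γ t) (deriv γ t)‖

/-- The set of lengths, in the metric induced by `X`, of the `C¹` paths from `p` to `q`. -/
def lens (X : ℝ × ℝ → E3) (p q : ℝ × ℝ) : Set ℝ :=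
  {ℓ | ∃ γ : ℝ → ℝ × ℝ, ContDiff ℝ 1 γ ∧ γ 0 = p ∧ γ 1 = q ∧ ℓ = pathLen X γ 0 1}

/-- The Riemannian distance of the metric induced by `X`. -/
noncomputable def idist (X : ℝ × ℝ → E3) (p q : ℝ × ℝ) : ℝ := sInf (lens X p q)

/-- The metric induced by `X` is complete: every sequence which is Cauchy for the Riemannian distance
converges for it. -/
def IsCompleteSurf (X : ℝ × ℝ → E3) : Prop :=
  ∀ u : ℕ → ℝ × ℝ,
    (∀ ε : ℝ, 0 < ε → ∃ N : ℕ, ∀ m n : ℕ, N ≤ m → N ≤ n → idist X (u m) (u n) < ε) →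
    ∃ p : ℝ × ℝ, Tendsto (fun n => idist X (u n) p) atTop (𝓝 0)

/-- Every divergent `C¹` path has infinite length in the metric induced by `X`. -/
def DivPathsInf (X : ℝ × ℝ → E3) : Prop :=
  ∀ γ : ℝ → ℝ × ℝ, ContDiff ℝ 1 γ → Tendsto γ atTop (cocompact (ℝ × ℝ)) →
    Tendsto (fun T => pathLen X γ 0 T) atTop atTop

/-- `k` is a principal curvature at `P` of the surface `X` with unit normal `ν`: the shape operator
`dX v ↦ -dν v` has eigenvalue `k`. -/
def IsPC (X ν : ℝ × ℝ → E3) (P : ℝ × ℝ) (k : ℝ) : Prop :=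
  ∃ v : ℝ × ℝ, v ≠ 0 ∧ fderiv ℝ ν P v = -k • fderiv ℝ X P v

theorem result (φ : ℝ × ℝ → ℝ) (hφ : Continuous φ) : ∃ (f : ℝ × ℝ → ℝ) (X ν : ℝ × ℝ → E3),
    -- `X` is the graph of the smooth function `f`, defined on the whole plane
    ContDiff ℝ ∞ f ∧ (∀ P, X P = !₂[P.1, P.2, f P]) ∧
    -- `X` is a smooth injective immersion, with smooth unit normal field `ν`
    ContDiff ℝ ∞ X ∧ ContDiff ℝ ∞ ν ∧
    Function.Injective X ∧ (∀ P, Function.Injective (fderiv ℝ X P)) ∧
    (∀ P, ‖ν P‖ = 1) ∧ (∀ P v, ⟪ν P, fderiv ℝ X P v⟫ = 0) ∧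
    -- `X` is proper and its induced metric is complete
    Tendsto X (cocompact (ℝ × ℝ)) (cocompact E3) ∧
    IsCompleteSurf X ∧ DivPathsInf X ∧
    -- at every point there are exactly two principal curvatures, `k₁ < 0 < k₂`, and
    -- `|k₁| + |k₂|` is at least `1` and at least the prescribed function
    ∀ P, ∃ k₁ k₂ : ℝ, (∀ k : ℝ, IsPC X ν P k ↔ k = k₁ ∨ k = k₂) ∧
      k₁ < 0 ∧ 0 < k₂ ∧ 1 ≤ |k₁| + |k₂| ∧ φ P ≤ |k₁| + |k₂| := by
  obtain ⟨f, hf, h⟩ := Pool.Agent.R747.MilG.main (fun P => max 1 (φ P)) (continuous_const.max hφ)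
  have hsm := Pool.Agent.R747.MilG.smooth_gph hf
  have hinj := Pool.Agent.R747.MilG.gph_injective f
  have hprop := Pool.Agent.R747.MilG.gph_proper f
  refine ⟨f, Pool.Agent.R747.MilG.gph f, Pool.Agent.R747.MilG.nrm f, hf, fun P => rfl, hsm,
    Pool.Agent.R747.MilG.smooth_nrm hf, hinj, Pool.Agent.R747.MilG.fderiv_gph_injective hf,
    Pool.Agent.R747.MilG.norm_nrm f, Pool.Agent.R747.MilG.inner_nrm hf, hprop,
    Pool.Agent.TH365.Mil.complete_of_proper hsm hprop hinj,
    Pool.Agent.TH365.Mil.divPaths_of_proper hsm hprop, ?_⟩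
  intro P
  obtain ⟨k₁, k₂, h1, h2, h3, h4⟩ := h P
  exact ⟨k₁, k₂, h1, h2, h3, (le_max_left _ _).trans h4, (le_max_right _ _).trans h4⟩

end Pool.Agent.Results.MP_0da599_gt.SaddleGraph
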